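import Mathlib
import Pool.Agent.Helper89.TopB

open Set Ordinal Topology

namespace Pool.Agent.Results.MP_3028b5_gt.NoCopyOmega2

universe u v w

/-- The `Σ`-product `Σ(Γ)`: the points of `ℝ^Γ` (product topology) with countable support. -/
def SigmaProduct (Γ : Type v) : Set (Γ → ℝ) :=
  {x | {γ | x γ ≠ 0}.Countable}

/-- `A` is a `Σ`-subset of `K`: there are a set `Γ` and a homeomorphic embedding `h` of `K` into
`ℝ^Γ` such that `A` is the preimage of `Σ(Γ)` under `h`. -/
def IsSigmaSubset {K : Type u} [TopologicalSpace K] (A : Set K) : Prop :=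
  ∃ (Γ : Type v) (h : K → (Γ → ℝ)), IsEmbedding h ∧ A = h ⁻¹' SigmaProduct Γ

/-- A compact space is Valdivia if it has a dense `Σ`-subset. -/
def IsValdivia (K : Type u) [TopologicalSpace K] : Prop :=
  ∃ A : Set K, IsSigmaSubset.{u, v} A ∧ Dense A

/-- `d` fragments `K`: every nonempty subset has nonempty relatively open subsets of arbitrarily
small `d`-diameter. -/
def Fragments {K : Type u} [TopologicalSpace K] (d : K → K → ℝ) : Prop :=
  ∀ L : Set K, L.Nonempty → ∀ ε : ℝ, 0 < ε →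
    ∃ U : Set K, IsOpen U ∧ (U ∩ L).Nonempty ∧
      ∃ c : ℝ, c < ε ∧ ∀ x ∈ U ∩ L, ∀ y ∈ U ∩ L, d x y ≤ c

/-- A compact space is Radon-Nikodym if some lower semicontinuous metric on it fragments it. -/
def IsRadonNikodym (K : Type u) [TopologicalSpace K] : Prop :=
  ∃ d : K → K → ℝ,
    (∀ x y, 0 ≤ d x y) ∧ (∀ x y, d x y = 0 ↔ x = y) ∧ (∀ x y, d x y = d y x) ∧
    (∀ x y z, d x z ≤ d x y + d y z) ∧
    LowerSemicontinuous (fun p : K × K => d p.1 p.2) ∧ Fragments d

/-- No Radon-Nikodym Valdivia compact space has a subspace homeomorphic to `[0, ω₂]`. -/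
theorem result (K : Type u) [TopologicalSpace K] [CompactSpace K] [T2Space K]
    (hRN : IsRadonNikodym K) (hV : IsValdivia.{u, v} K) :
    ¬ ∃ S : Set K, Nonempty (S ≃ₜ Set.Iic (ω_ 2 : Ordinal.{w})) := by
  rintro ⟨S, ⟨e⟩⟩
  obtain ⟨d, h0, heq, -, -, hlsc, hfrag⟩ := hRN
  obtain ⟨A, ⟨Γ, h, hh, rfl⟩, hA⟩ := hV
  have hpos : ∀ x y, x ≠ y → 0 < d x y := fun x y hne =>
    lt_of_le_of_ne (h0 x y) fun h => hne ((heq x y).1 h.symm)
  have hsmall := fun x => Pool.Agent.Helper89.RNV.support_small h hh hA d hpos hlsc (by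
    intro L hL ε hε
    obtain ⟨U, hU, hne, c, hc, hUL⟩ := hfrag L hL ε hε
    exact ⟨U, hU, hne, fun x hx y hy => (hUL x hx y hy).trans_lt hc⟩) x
  exact Pool.Agent.Helper89.RNV.no_copy h hh.continuous hh.injective hsmall
    (fun a => (e.symm a).1) (continuous_subtype_val.comp e.symm.continuous)
    (Subtype.val_injective.comp e.symm.injective)

end Pool.Agent.Results.MP_3028b5_gt.NoCopyOmega2
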